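import Mathlib
import Pool.Agent.R583.NSUltra

/-!
# Monads of ultrafilters need not be convex

Let `c` realise in `*ℕ` the product `U ⊗ U` of a nonprincipal ultrafilter with itself and let
`m < m'` be its two coordinates. Then `2 ^ m ∣ 2 ^ (m + 1) ∣ 2 ^ m'`, the first and the last number
are in the same monad and the middle one is not.
-/

set_option autoImplicit false

namespace Pool.Agent.Results.MP_0a3202_lc.MonadNotConvex

open FirstOrder FirstOrder.Language Filter Pool.Agent.R583.NS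

universe u

/-- `X ⊆ *ℕ` is convex: whenever `x, y ∈ X` and `x *∣ z *∣ y`, then `z ∈ X`. -/
def Convex' {S : Type u} [fullLang.Structure S] (X : Set S) : Prop :=
  ∀ x ∈ X, ∀ y ∈ X, ∀ z : S, StarDvd x z → StarDvd z y → z ∈ X

/-- a coding of pairs -/
noncomputable def pe : ℕ+ ≃ ℕ+ × ℕ+ := (Denumerable.eqv ℕ+).trans (Denumerable.eqv (ℕ+ × ℕ+)).symm

/-- the square of the hyperfilter -/
noncomputable def W : Ultrafilter ℕ+ := hyp.bind fun m => hyp.map fun n => pe.symm (m, n)

theorem mem_W {A : Set ℕ+} :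
    A ∈ W ↔ ∀ᶠ m in (hyp : Filter ℕ+), ∀ᶠ n in (hyp : Filter ℕ+), pe.symm (m, n) ∈ A := Iff.rfl

/-- `2 ^ m` -/
def p2 (m : ℕ+) : ℕ+ := 2 ^ (m : ℕ)

theorem p2_dvd {m n : ℕ+} (h : m ≤ n) : p2 m ∣ p2 n := pow_dvd_pow 2 h

theorem p2_inj {m n : ℕ+} (h : p2 m = p2 n) : m = n := by
  have h1 : (2 : ℕ) ^ (m : ℕ) = 2 ^ (n : ℕ) := by
    have := congrArg (fun x : ℕ+ => (x : ℕ)) h
    simpa [p2, PNat.pow_coe] using this
  exact PNat.coe_injective (Nat.pow_right_injective le_rfl h1)

/-- **Main theorem.** For every nonstandard extension `S = *ℕ` of the positive integers in which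
all monads are nonempty there is an ultrafilter `F` whose monad is not convex; and such extensions
exist. -/
theorem result :
    (∀ (S : Type u) [fullLang.Structure S] (_ : ℕ+ ↪ₑ[fullLang] S),
      (∀ F : Ultrafilter ℕ+, (monad S F).Nonempty) → ∃ F : Ultrafilter ℕ+, ¬ Convex' (monad S F)) ∧
    ∃ (S : Type) (_ : fullLang.Structure S) (_ : ℕ+ ↪ₑ[fullLang] S),
      ∀ F : Ultrafilter ℕ+, (monad S F).Nonempty := by
  constructor
  · intro S _ e hne
    obtain ⟨c, hc⟩ := hne W
    set f : ℕ+ → ℕ+ := fun n => p2 (pe n).1 with hf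
    set g : ℕ+ → ℕ+ := fun n => p2 ((pe n).1 + 1) with hg
    set h : ℕ+ → ℕ+ := fun n => p2 (pe n).2 with hh
    have hlt : {n : ℕ+ | (pe n).1 < (pe n).2} ∈ W := by
      rw [mem_W]
      refine Eventually.of_forall fun m => ?_
      filter_upwards [eventually_gt m] with n hn
      simpa using hn
    have hcl : c ∈ star S {n : ℕ+ | (pe n).1 < (pe n).2} := hc _ hlt
    refine ⟨W.map f, fun hconv => ?_⟩
    have hx : starFun f c ∈ monad S (W.map f) := by
      intro A hA
      rw [star_fun e]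
      exact hc _ hA
    have hy : starFun h c ∈ monad S (W.map f) := by
      intro A hA
      rw [star_fun e]
      refine hc _ ?_
      have h1 : f ⁻¹' A ∈ W := hA
      rw [mem_W] at h1 ⊢
      refine Eventually.of_forall fun m => ?_
      filter_upwards [h1] with n hn
      obtain ⟨k, hk⟩ := hn.exists
      simp only [Set.mem_preimage, hf, hh, Equiv.apply_symm_apply] at hk ⊢
      exact hk
    have hxz : StarDvd (starFun f c) (starFun g c) :=
      star_dvd e (C := Set.univ) (fun n _ => p2_dvd (PNat.lt_add_right _ _).le)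
        (star_mono e (Set.subset_univ _) hcl)
    have hzy : StarDvd (starFun g c) (starFun h c) :=
      star_dvd e (fun n hn => p2_dvd (PNat.add_one_le_iff.2 hn)) hcl
    have hz := hconv _ hx _ hy _ hxz hzy
    -- parity of the exponent
    set E : Set ℕ+ := {k : ℕ+ | ∃ m : ℕ+, k = p2 m ∧ Even (m : ℕ)} with hE
    by_cases hEW : E ∈ W.map f
    · have h1 := hz E hEW
      have h2 : c ∈ star S (f ⁻¹' E) := hc _ hEW
      rw [star_fun e] at h1
      have h3 : f ⁻¹' E ⊆ (g ⁻¹' E)ᶜ := by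
        rintro n ⟨m, hm, hm'⟩ ⟨k, hk, hk'⟩
        have e1 := p2_inj hm
        have e2 := p2_inj hk
        rw [← e2, PNat.add_coe, PNat.one_coe, e1] at hk'
        exact (Nat.not_even_iff_odd.2 hm'.add_one) hk'
      exact (star_compl e).1 (star_mono e h3 h2) h1
    · have h0 : Eᶜ ∈ W.map f := Ultrafilter.compl_mem_iff_notMem.2 hEW
      have h1 := hz Eᶜ h0
      have h2 : c ∈ star S (f ⁻¹' Eᶜ) := hc _ h0
      rw [star_fun e] at h1
      have h3 : f ⁻¹' Eᶜ ⊆ (g ⁻¹' Eᶜ)ᶜ := by
        intro n hn hn'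
        refine hn' ⟨(pe n).1 + 1, rfl, ?_⟩
        rw [PNat.add_coe, PNat.one_coe]
        have h4 : ¬ Even (((pe n).1 : ℕ+) : ℕ) := fun h5 => hn ⟨_, rfl, h5⟩
        exact (Nat.not_even_iff_odd.1 h4).add_one
      exact (star_compl e).1 (star_mono e h3 h2) h1
  · refine ⟨UPow EJ, inferInstance, diag EJ, fun F => ⟨cls EJ fun j => j F, fun A hA => ?_⟩⟩
    rw [mem_star]
    exact EJ_proj F hA

end Pool.Agent.Results.MP_0a3202_lc.MonadNotConvex
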